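import Pool.Agent.Helper19.TGX.Goals

/-! # MP_a41896_nt, packet TGX-KIL -/

set_option autoImplicit false

open Polynomial

namespace Pool.Agent.Helper24.TGX.KIL

open WeierstrassCurve
open Pool.Agent.Helper29.BL Pool.Agent.Helper42.SG
open Pool.Agent.Helper60.T3 (WL zd IP)
open Pool.Agent.Helper92.TG (mp)
open Pool.Agent.Helper60.TGX (Val AddF)
open Pool.Agent.Helper19.TGX

theorem t (h0 : KIL0) (hP : PID) (hC : CRP) (hB : BPF) (hD : DCF) : KIL := by
  intro K Ω _ _ _ _ _ W W' hW hW' A B G E hadd hBm hEm hGE δ i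
  have hWe : (WL Ω W).IsElliptic := by
    haveI := hW
    unfold WL
    infer_instance
  have hWe' : (WL Ω W').IsElliptic := by
    haveI := hW'
    unfold WL
    infer_instance
  haveI : CharZero Ω := charZero_of_injective_algebraMap (algebraMap K Ω).injective
  obtain ⟨hid, hG0⟩ := hP Ω (WL Ω W) (WL Ω W') hWe hWe' A B G E hadd
  obtain ⟨hdeg, -, -, hsq, -, -, -⟩ := hB Ω (WL Ω W) hWe
  obtain ⟨N, hN1, hN2⟩ := hC Ω (WL Ω W') hWe' A B G E (bp (WL Ω W)) hadd.cop hadd.hB hadd.hE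
    hsq hid
  have hw : wr A B ≠ 0 := hadd.nc
  have hβ0 : bp (WL Ω W) ≠ 0 := by
    intro h
    rw [h, natDegree_zero] at hdeg
    omega
  have hN0 : N ≠ 0 := by
    intro h
    rw [h, zero_mul] at hN1
    exact mul_ne_zero hw hadd.hE hN1
  have hNd : N.natDegree = 0 := by
    have := hN2 hN0
    omega
  obtain ⟨a, rfl⟩ := natDegree_eq_zero.1 hNd
  have ha : a ≠ 0 := fun h => hN0 (by rw [h, C_0])
  have hE0 := hadd.hE
  have hB0 := hadd.hB
  have key : C (a ^ 2) * B * hf (WL Ω W') A B = wr A B ^ 2 * bp (WL Ω W) := by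
    have h1 : E ^ 2 ≠ 0 := pow_ne_zero _ hE0
    refine mul_left_cancel₀ h1 ?_
    rw [C_pow]
    linear_combination (C a ^ 2 * B) * hid -
      bp (WL Ω W) * (wr A B * E + C a * (B ^ 2 * G)) * hN1
  have hAB := h0 K Ω W W' hW hW' A B a hadd.cop hBm hw ha key δ
  obtain ⟨d1, d2, d3, d4, -, -⟩ := hD K Ω δ
  have dz : ∀ p : Polynomial Ω, (∀ i, δ (p.coeff i) = 0) → dcf δ p = 0 := by
    intro p hp
    ext j
    rw [d1, hp, coeff_zero]
  have hA' := dz A (fun j => (hAB j).1)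
  have hB' := dz B (fun j => (hAB j).2)
  -- `β` and `h` are killed
  have hb2 : ∀ V : Affine K, (WL Ω V).b₂ = algebraMap K Ω V.b₂ := fun V => by
    unfold WL; exact map_b₂ _ _
  have hb4 : ∀ V : Affine K, (WL Ω V).b₄ = algebraMap K Ω V.b₄ := fun V => by
    unfold WL; exact map_b₄ _ _
  have hb6 : ∀ V : Affine K, (WL Ω V).b₆ = algebraMap K Ω V.b₆ := fun V => by
    unfold WL; exact map_b₆ _ _
  have hβ' : dcf δ (bp (WL Ω W)) = 0 := by
    have : bp (WL Ω W) = (bp W).map (algebraMap K Ω) := by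
      unfold bp
      rw [hb2, hb4, hb6]
      simp
    rw [this, d4]
  have dmul : ∀ p q : Polynomial Ω, dcf δ p = 0 → dcf δ q = 0 → dcf δ (p * q) = 0 := by
    intro p q hp hq
    rw [d3, hp, hq, zero_mul, mul_zero, add_zero]
  have dadd : ∀ p q : Polynomial Ω, dcf δ p = 0 → dcf δ q = 0 → dcf δ (p + q) = 0 := by
    intro p q hp hq
    rw [d2, hp, hq, add_zero]
  have dC : ∀ c : K, dcf δ (C (algebraMap K Ω c)) = 0 := by
    intro c
    have := d4 (C c)
    rwa [Polynomial.map_C] at this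
  have d1' : dcf δ (1 : Polynomial Ω) = 0 := by
    have := dC 1
    rwa [map_one, C_1] at this
  have dpow : ∀ (p : Polynomial Ω) (n : ℕ), dcf δ p = 0 → dcf δ (p ^ n) = 0 := by
    intro p n hp
    induction n with
    | zero => rw [pow_zero]; exact d1'
    | succ n ih => rw [pow_succ]; exact dmul _ _ ih hp
  have dn : ∀ n : ℕ, dcf δ ((n : Polynomial Ω)) = 0 := by
    intro n
    have := dC (n : K)
    rwa [map_natCast, map_natCast] at this
  have h4 : dcf δ (4 : Polynomial Ω) = 0 := dn 4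
  have h2 : dcf δ (2 : Polynomial Ω) = 0 := dn 2
  have hh' : dcf δ (hf (WL Ω W') A B) = 0 := by
    unfold hf
    rw [hb2, hb4, hb6]
    refine dadd _ _ (dadd _ _ (dadd _ _ ?_ ?_) ?_) ?_
    · exact dmul _ _ h4 (dpow _ _ hA')
    · exact dmul _ _ (dmul _ _ (dC _) (dpow _ _ hA')) hB'
    · exact dmul _ _ (dmul _ _ (dmul _ _ h2 (dC _)) hA') (dpow _ _ hB')
    · exact dmul _ _ (dC _) (dpow _ _ hB')
  have hB3 : dcf δ (B ^ 3) = 0 := dpow _ _ hB'
  -- the derivative of the identity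
  have hder := congrArg (dcf δ) hid
  rw [d3, hh', mul_zero, add_zero, d3 (G ^ 2 * bp (WL Ω W)), hB3, mul_zero, add_zero,
    d3 (G ^ 2), hβ', mul_zero, add_zero, pow_two, d3, pow_two, d3] at hder
  have h2' : (2 : Polynomial Ω) ≠ 0 := two_ne_zero
  have hGe : G * dcf δ E = dcf δ G * E := by
    have hne : 2 * G * bp (WL Ω W) * B ^ 3 ≠ 0 :=
      mul_ne_zero (mul_ne_zero (mul_ne_zero h2' hG0) hβ0) (pow_ne_zero _ hB0)
    refine mul_left_cancel₀ hne ?_
    linear_combination E * hder - 2 * dcf δ E * hid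
  have hdvd : E ∣ dcf δ E := by
    have h1 : E ∣ G * dcf δ E := ⟨dcf δ G, by rw [hGe, mul_comm]⟩
    exact hGE.symm.dvd_of_dvd_mul_left h1
  have hE' : dcf δ E = 0 := by
    refine eq_zero_of_dvd_of_degree_lt hdvd ?_
    rw [degree_eq_natDegree hE0, degree_lt_iff_coeff_zero]
    intro m hm
    rw [d1]
    rcases hm.eq_or_lt with h | h
    · rw [← h, hEm.coeff_natDegree]
      exact δ.map_one_eq_zero
    · rw [coeff_eq_zero_of_natDegree_lt h, map_zero]
  have hG' : dcf δ G = 0 := by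
    rw [hE', mul_zero] at hGe
    exact (mul_eq_zero.1 hGe.symm).resolve_right hE0
  refine ⟨(hAB i).1, (hAB i).2, ?_, ?_⟩
  · rw [← d1, hG', coeff_zero]
  · rw [← d1, hE', coeff_zero]

end Pool.Agent.Helper24.TGX.KIL
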